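import Mathlib
import Pool.Agent.Helper24.GR.Defs
import Pool.Agent.Helper24.GR.Basic

set_option autoImplicit false

/-! GR-12: the limit along an ultrafilter on the finite subfamilies. -/

namespace Pool.Agent.Helper24.GR

open Function Order Filter

universe u v

variable {V : Type u} {E : Type v}

/-- The max cut statement. -/
def li_MaxCut (D : Dig V E) : Prop :=
  ∀ B : Set E, LocFin D B →
    ∃ c : V → Bool, ∀ X : Finset V,
      {e | e ∈ B ∧ Xor (D.src e ∈ X) (D.tgt e ∈ X) ∧ c (D.src e) = c (D.tgt e)}.ncard ≤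
      {e | e ∈ B ∧ Xor (D.src e ∈ X) (D.tgt e ∈ X) ∧ c (D.src e) ≠ c (D.tgt e)}.ncard

/-- The orientation statement. -/
def li_Orient (D : Dig V E) [LinearOrder V] : Prop :=
  ∀ (B : Set E) (_ : Bal D B) (c : V → Bool)
    (_ : ∀ X : Finset V,
      {e | e ∈ B ∧ Xor (D.src e ∈ X) (D.tgt e ∈ X) ∧ c (D.src e) = c (D.tgt e)}.ncard ≤
      {e | e ∈ B ∧ Xor (D.src e ∈ X) (D.tgt e ∈ X) ∧ c (D.src e) ≠ c (D.tgt e)}.ncard),
    ∃ Δ ⊆ B, Bal D Δ ∧ ∀ e ∈ B, c (D.src e) = c (D.tgt e) →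
      (D.flip Δ).src e < (D.flip Δ).tgt e

theorem li_exists_limit (D : Dig V E) [LinearOrder V] (hmax : li_MaxCut D) (hor : li_Orient D)
    {ι : Type v} (C : ι → Set E)
    (hd : Pairwise (Disjoint on C)) (hb : ∀ i, Bal D (C i)) :
    ∃ c : V → Bool, ∃ Ω ⊆ ⋃ i, C i,
      (∀ T : Finset E, (T : Set E) ⊆ ⋃ i ∈ (Set.univ : Set ι), C i →
        ∃ F : Finset ι, (F : Set ι) ⊆ Set.univ ∧ ∃ Δ ⊆ ⋃ i ∈ F, C i, Bal D Δ ∧
          ∀ e ∈ T, (e ∈ Δ ↔ e ∈ Ω)) ∧
      ∀ e ∈ ⋃ i, C i, c (D.src e) = c (D.tgt e) →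
        (D.flip Ω).src e < (D.flip Ω).tgt e := by
  classical
  have hB : ∀ F : Finset ι, Bal D (⋃ i ∈ F, C i) := fun F =>
    Bal.biUnion F (fun i _ j _ hij => hd hij) fun i _ => hb i
  choose cF hcF using fun F : Finset ι => hmax _ (hB F).1
  choose Δ hΔ1 hΔ2 hΔ3 using fun F : Finset ι => hor _ (hB F) (cF F) (hcF F)
  let U : Ultrafilter (Finset ι) := Ultrafilter.of atTop
  have hU : (U : Filter (Finset ι)) ≤ atTop := Ultrafilter.of_le atTop
  have key : ∀ p : Finset ι → Prop, ∀ᶠ F in (U : Filter (Finset ι)),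
      (p F ↔ ∀ᶠ F in (U : Filter (Finset ι)), p F) := by
    intro p
    by_cases h : ∀ᶠ F in (U : Filter (Finset ι)), p F
    · filter_upwards [h] with F hF
      exact iff_of_true hF h
    · have h' : ∀ᶠ F in (U : Filter (Finset ι)), ¬ p F := Ultrafilter.eventually_not.2 h
      filter_upwards [h'] with F hF
      exact iff_of_false hF h
  refine ⟨fun v => decide (∀ᶠ F in (U : Filter (Finset ι)), cF F v = true),
    {e | e ∈ ⋃ i, C i ∧ ∀ᶠ F in (U : Filter (Finset ι)), e ∈ Δ F}, fun e he => he.1, ?_, ?_⟩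
  · intro T hT
    have h1 : ∀ᶠ F in (U : Filter (Finset ι)), ∀ e ∈ T,
        (e ∈ Δ F ↔ ∀ᶠ F in (U : Filter (Finset ι)), e ∈ Δ F) := by
      rw [Filter.eventually_all_finset]
      intro e _
      exact key fun F => e ∈ Δ F
    obtain ⟨F, hF⟩ := h1.exists
    refine ⟨F, Set.subset_univ _, Δ F, hΔ1 F, hΔ2 F, fun e he => ?_⟩
    have hT' : e ∈ ⋃ i, C i := by
      have := hT he
      simpa using this
    rw [hF e he]
    exact ⟨fun h => ⟨hT', h⟩, fun h => h.2⟩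
  · intro e he hce
    have h1 := key fun F => cF F (D.src e) = true
    have h2 := key fun F => cF F (D.tgt e) = true
    have h3 := key fun F => e ∈ Δ F
    obtain ⟨i, hi⟩ := Set.mem_iUnion.1 he
    have h4 : ∀ᶠ F in (U : Filter (Finset ι)), i ∈ F := by
      apply hU
      filter_upwards [eventually_ge_atTop ({i} : Finset ι)] with F hF
      exact hF (Finset.mem_singleton_self i)
    obtain ⟨F, h1, h2, h3, h4⟩ := (h1.and (h2.and (h3.and h4))).exists
    have h5 : cF F (D.src e) = cF F (D.tgt e) := by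
      rw [decide_eq_decide, ← h1, ← h2] at hce
      exact Bool.eq_iff_iff.2 hce
    have h6 := hΔ3 F e (Set.mem_iUnion₂.2 ⟨i, h4, hi⟩) h5
    have h7 : e ∈ Δ F ↔ e ∈ {e | e ∈ ⋃ i, C i ∧ ∀ᶠ F in (U : Filter (Finset ι)), e ∈ Δ F} := by
      rw [h3]
      exact ⟨fun h => ⟨he, h⟩, fun h => h.2⟩
    obtain ⟨h8, h9⟩ := GR.flip_congr (D := D) h7
    rw [← h8, ← h9]
    exact h6

end Pool.Agent.Helper24.GR
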