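import Mathlib
import Pool.Agent.Helper24.GR.Defs
import Pool.Agent.Helper24.GR.Basic
import Pool.Agent.Helper87.GR.Walk

set_option autoImplicit false

/-! GR-13: a linear order of the vertices, with all edges of an acyclic set forward, without
strictly increasing two-way infinite sequences. -/

namespace Pool.Agent.Helper24.GR

open Function Order

universe u v

variable {V : Type u} {E : Type v}

theorem or_seq {r : V → V → Prop} {v : V} (h : ¬ Acc r v) :
    ∃ y : ℕ → V, y 0 = v ∧ ∀ n, r (y (n + 1)) (y n) := by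
  classical
  have key : ∀ w : {w // ¬ Acc r w}, ∃ w' : {w // ¬ Acc r w}, r w'.1 w.1 := by
    rintro ⟨w, hw⟩
    by_contra hcon
    apply hw
    constructor
    intro y hy
    by_contra hy'
    exact hcon ⟨⟨y, hy'⟩, hy⟩
  choose g hg using key
  refine ⟨fun n => (g^[n] ⟨v, h⟩).1, rfl, fun n => ?_⟩
  change r (g^[n + 1] ⟨v, h⟩).1 (g^[n] ⟨v, h⟩).1
  rw [Function.iterate_succ_apply']
  exact hg _

theorem or_acc {D : Dig V E} {R : Set E} (hR : ∀ C ⊆ R, ¬ GenCyc D C) {v : V}
    (h : ¬ Acc (fun u w => ∃ e ∈ R, D.src e = u ∧ D.tgt e = w) v) :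
    Acc (fun u w => ∃ e ∈ R, D.src e = w ∧ D.tgt e = u) v := by
  by_contra h'
  obtain ⟨y, hy0, hy⟩ := or_seq h
  obtain ⟨z, hz0, hz⟩ := or_seq h'
  have key : ∀ i : ℤ, ∃ e ∈ R, D.src e = (fun i : ℤ => if 0 ≤ i then z i.toNat else y (-i).toNat) i ∧
      D.tgt e = (fun i : ℤ => if 0 ≤ i then z i.toNat else y (-i).toNat) (i + 1) := by
    intro i
    by_cases hi : 0 ≤ i
    · obtain ⟨n, rfl⟩ := Int.eq_ofNat_of_zero_le hi
      obtain ⟨e, he, h1, h2⟩ := hz n
      refine ⟨e, he, ?_, ?_⟩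
      · simpa using h1
      · have e1 : (0 : ℤ) ≤ (n : ℤ) + 1 := by omega
        have e2 : ((n : ℤ) + 1).toNat = n + 1 := by omega
        simp only [e1, if_true, e2]
        exact h2
    · obtain ⟨n, hn⟩ : ∃ n : ℕ, i = -((n : ℤ) + 1) := ⟨(-i - 1).toNat, by omega⟩
      subst hn
      obtain ⟨e, he, h1, h2⟩ := hy n
      refine ⟨e, he, ?_, ?_⟩
      · have e2 : (-(-((n : ℤ) + 1))).toNat = n + 1 := by omega
        simp only [hi, if_false, e2]
        exact h1
      · rcases Nat.eq_zero_or_pos n with rfl | hn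
        · simp only [Nat.cast_zero, zero_add, neg_add_cancel, le_refl, if_true, Int.toNat_zero]
          rw [hz0, h2, hy0]
        · have e1 : ¬ (0 : ℤ) ≤ -((n : ℤ) + 1) + 1 := by omega
          have e2 : (-(-((n : ℤ) + 1) + 1)).toNat = n := by omega
          simp only [e1, if_false, e2]
          exact h2
  choose a ha1 ha2 using key
  obtain ⟨C, hC, hg⟩ := exists_genCyc_of_walk D _ a ha2
  refine hR C (hC.trans ?_) hg
  rintro _ ⟨i, rfl⟩
  exact ha1 i

theorem exists_order (D : Dig V E) (R : Set E) (hR : ∀ C ⊆ R, ¬ GenCyc D C) :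
    ∃ lo : LinearOrder V, (∀ e ∈ R, lo.lt (D.src e) (D.tgt e)) ∧
      ¬ ∃ x : ℤ → V, ∀ i, lo.lt (x i) (x (i + 1)) := by
  classical
  let r : V → V → Prop := fun u w => ∃ e ∈ R, D.src e = u ∧ D.tgt e = w
  let s : V → V → Prop := fun u w => ∃ e ∈ R, D.src e = w ∧ D.tgt e = u
  have hs : ∀ v, ¬ Acc r v → Acc s v := fun v hv => or_acc hR hv
  let wo : LinearOrder V := IsWellOrder.linearOrder (WellOrderingRel (α := V))
  have wf : WellFoundedLT V := ⟨(WellOrderingRel.isWellOrder (α := V)).wf⟩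
  let W := Ordinal.{u} ×ₗ V
  let f : V → W ⊕ₗ Wᵒᵈ := fun v =>
    if h : Acc r v then toLex (Sum.inl (toLex (h.rank, v)))
    else toLex (Sum.inr (OrderDual.toDual (toLex ((hs v h).rank, v))))
  have f1 : ∀ v (h : Acc r v), f v = toLex (Sum.inl (toLex (h.rank, v))) := fun v h => dif_pos h
  have f2 : ∀ v (h : ¬ Acc r v),
      f v = toLex (Sum.inr (OrderDual.toDual (toLex ((hs v h).rank, v)))) := fun v h => dif_neg h
  have hf : Injective f := by
    intro a b hab
    by_cases ha : Acc r a <;> by_cases hb : Acc r b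
    · rw [f1 a ha, f1 b hb] at hab
      exact (Prod.ext_iff.1 (toLex.injective (Sum.inl.inj (toLex.injective hab)))).2
    · rw [f1 a ha, f2 b hb] at hab
      exact absurd (toLex.injective hab) (by simp)
    · rw [f2 a ha, f1 b hb] at hab
      exact absurd (toLex.injective hab) (by simp)
    · rw [f2 a ha, f2 b hb] at hab
      exact (Prod.ext_iff.1 (toLex.injective (OrderDual.toDual.injective
        (Sum.inr.inj (toLex.injective hab))))).2
  refine ⟨LinearOrder.lift' f hf, ?_, ?_⟩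
  · intro e he
    change f (D.src e) < f (D.tgt e)
    by_cases hb : Acc r (D.tgt e)
    · have ha : Acc r (D.src e) := hb.inv ⟨e, he, rfl, rfl⟩
      rw [f1 _ ha, f1 _ hb]
      apply Sum.Lex.inl_lt_inl_iff.2
      rw [Prod.Lex.lt_iff]
      left
      exact Acc.rank_lt_of_rel hb ⟨e, he, rfl, rfl⟩
    · by_cases ha : Acc r (D.src e)
      · rw [f1 _ ha, f2 _ hb]
        exact Sum.Lex.inl_lt_inr _ _
      · rw [f2 _ ha, f2 _ hb]
        apply Sum.Lex.inr_lt_inr_iff.2
        rw [OrderDual.toDual_lt_toDual, Prod.Lex.lt_iff]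
        left
        exact Acc.rank_lt_of_rel (hs _ ha) ⟨e, he, rfl, rfl⟩
  · rintro ⟨x, hx⟩
    replace hx : ∀ i, f (x i) < f (x (i + 1)) := hx
    by_cases hA : ∃ i, Acc r (x i)
    · obtain ⟨i, hi⟩ := hA
      have h1 : ∀ n : ℕ, Acc r (x (i - n)) := by
        intro n
        induction n with
        | zero => simpa using hi
        | succ n ih =>
          by_contra hcon
          have h2 := hx (i - ((n + 1 : ℕ) : ℤ))
          have e1 : i - ((n + 1 : ℕ) : ℤ) + 1 = i - n := by push_cast; ring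
          rw [e1, f1 _ ih, f2 _ hcon] at h2
          exact Sum.Lex.not_inr_lt_inl h2
      obtain ⟨n, hn⟩ := WellFounded.not_rel_apply_succ (r := ((· < ·) : W → W → Prop))
        (fun n : ℕ => (toLex ((h1 n).rank, x (i - n)) : W))
      apply hn
      have h2 := hx (i - ((n + 1 : ℕ) : ℤ))
      have e1 : i - ((n + 1 : ℕ) : ℤ) + 1 = i - n := by push_cast; ring
      rw [f1 _ (h1 (n + 1)), e1, f1 _ (h1 n)] at h2
      exact Sum.Lex.inl_lt_inl_iff.1 h2
    · push Not at hA
      obtain ⟨n, hn⟩ := WellFounded.not_rel_apply_succ (r := ((· < ·) : W → W → Prop))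
        (fun n : ℕ => (toLex ((hs _ (hA n)).rank, x n) : W))
      apply hn
      have h2 := hx n
      rw [f2 _ (hA n), f2 _ (hA (n + 1))] at h2
      exact OrderDual.toDual_lt_toDual.1 (Sum.Lex.inr_lt_inr_iff.1 h2)

end Pool.Agent.Helper24.GR
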